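import Mathlib

/-!
# A cut larger than half

For a loopless multigraph with vertex set `B`, `v = |B|`, and edge set `E` there is a bipartition of
`B` for which at most `|E| (v - 1) / (2 v)` edges have both ends in the same part (average over the
sets of size `⌊v / 2⌋`).
-/

set_option autoImplicit false

namespace Pool.Agent.L0

open Finset

section

variable {B : Type*} [Fintype B] [DecidableEq B]

/-- the number of sets of size `m + 1` which contain `x` and not `y` -/
theorem card_sep {n m : ℕ} (hB : Fintype.card B = n + 2) {x y : B} (hxy : x ≠ y) :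
    ((powersetCard (m + 1) (univ : Finset B)).filter fun A => x ∈ A ∧ y ∉ A).card = n.choose m := by
  have h1 : ((powersetCard (m + 1) (univ : Finset B)).filter fun A => x ∈ A ∧ y ∉ A) =
      (powersetCard m ((univ.erase x).erase y)).image (insert x) := by
    ext A
    simp only [mem_filter, mem_powersetCard, mem_image, subset_univ, true_and]
    constructor
    · rintro ⟨h1, h2, h3⟩
      refine ⟨A.erase x, ⟨?_, ?_⟩, insert_erase h2⟩
      · intro z hz
        rw [mem_erase] at hz
        rw [mem_erase, mem_erase]
        exact ⟨fun h => h3 (h ▸ hz.2), hz.1, mem_univ _⟩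
      · rw [card_erase_of_mem h2, h1]; rfl
    · rintro ⟨C, ⟨h1, h2⟩, rfl⟩
      have hx : x ∉ C := fun h => by
        have := h1 h
        simp at this
      have hy : y ∉ C := fun h => by
        have := h1 h
        simp at this
      refine ⟨by rw [card_insert_of_notMem hx, h2], mem_insert_self _ _, ?_⟩
      rw [mem_insert]
      rintro (h | h)
      · exact hxy h.symm
      · exact hy h
  rw [h1, card_image_of_injOn, card_powersetCard]
  · congr 1
    rw [card_erase_of_mem (by simp [hxy.symm]), card_erase_of_mem (mem_univ _), card_univ, hB]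
    rfl
  · intro C hC D hD h
    have hx : ∀ C ∈ (powersetCard m ((univ.erase x).erase y) : Finset (Finset B)), x ∉ C := by
      intro C hC h
      have := (mem_powersetCard.1 hC).1 h
      simp at this
    have h2 : insert x C = insert x D := h
    rw [← erase_insert (hx C hC), h2, erase_insert (hx D hD)]

/-- the number of sets of size `m + 1` which do not separate `x` and `y` -/
theorem card_nonsep {n m : ℕ} (hB : Fintype.card B = n + 2) {x y : B} (hxy : x ≠ y) :
    ((powersetCard (m + 1) (univ : Finset B)).filter fun A => (x ∈ A ↔ y ∈ A)).card +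
      2 * n.choose m = (n + 2).choose (m + 1) := by
  have h1 := card_sep (m := m) hB hxy
  have h2 := card_sep (m := m) hB hxy.symm
  have h3 : (powersetCard (m + 1) (univ : Finset B)).card = (n + 2).choose (m + 1) := by
    rw [card_powersetCard, card_univ, hB]
  have h4 := card_filter_add_card_filter_not (s := powersetCard (m + 1) (univ : Finset B))
    (fun A => (x ∈ A ↔ y ∈ A))
  have h5 : ((powersetCard (m + 1) (univ : Finset B)).filter fun A => ¬ (x ∈ A ↔ y ∈ A)) =
      ((powersetCard (m + 1) (univ : Finset B)).filter fun A => x ∈ A ∧ y ∉ A) ∪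
      ((powersetCard (m + 1) (univ : Finset B)).filter fun A => y ∈ A ∧ x ∉ A) := by
    rw [← filter_or]
    apply filter_congr
    intro A _
    tauto
  rw [h5, card_union_of_disjoint, h1, h2, h3] at h4
  · omega
  · rw [disjoint_filter]
    intro A _ h h'
    exact h.2 h'.1

theorem key (n m : ℕ) (hm : m = n / 2) :
    (n + 3) * (n + 2).choose (m + 1) ≤ 4 * (n + 2) * n.choose m := by
  have h1 : (n + 2) * (n + 1).choose m = (n + 2).choose (m + 1) * (m + 1) :=
    Nat.add_one_mul_choose_eq (n + 1) m
  have h2 : n.choose m * (n + 1) = (n + 1).choose m * (n + 1 - m) := Nat.choose_mul_succ_eq n m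
  have h3 : (n + 3) * (n + 1) ≤ 4 * (m + 1) * (n + 1 - m) := by
    obtain ⟨t, ht | ht⟩ : ∃ t, n = 2 * t ∨ n = 2 * t + 1 := ⟨n / 2, by omega⟩
    · have : m = t := by omega
      subst this
      have h : n + 1 - m = m + 1 := by omega
      rw [h, ht]; nlinarith
    · have : m = t := by omega
      subst this
      have h : n + 1 - m = m + 2 := by omega
      rw [h, ht]; nlinarith
  refine Nat.le_of_mul_le_mul_right (c := n + 1) ?_ (by omega)
  calc (n + 3) * (n + 2).choose (m + 1) * (n + 1)
      = (n + 3) * (n + 1) * (n + 2).choose (m + 1) := by ring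
    _ ≤ 4 * (m + 1) * (n + 1 - m) * (n + 2).choose (m + 1) := Nat.mul_le_mul_right _ h3
    _ = 4 * ((n + 2).choose (m + 1) * (m + 1)) * (n + 1 - m) := by ring
    _ = 4 * (n + 2) * ((n + 1).choose m * (n + 1 - m)) := by rw [← h1]; ring
    _ = 4 * (n + 2) * n.choose m * (n + 1) := by rw [← h2]; ring

end

/-- **A cut larger than half.** -/
theorem maxcut {B E : Type*} [Fintype B] [DecidableEq B] [Fintype E] (a b : E → B)
    (h : ∀ e, a e ≠ b e) :
    ∃ f : B → Bool, 2 * Fintype.card B * (univ.filter fun e => f (a e) = f (b e)).card ≤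
      Fintype.card E * (Fintype.card B - 1) := by
  classical
  rcases isEmpty_or_nonempty E with hE | ⟨⟨e₀⟩⟩
  · refine ⟨fun _ => true, ?_⟩
    simp
  have hB : 2 ≤ Fintype.card B := by
    have : 1 < Fintype.card B := Fintype.one_lt_card_iff.2 ⟨a e₀, b e₀, h e₀⟩
    omega
  obtain ⟨n, hn⟩ : ∃ n, Fintype.card B = n + 2 := ⟨Fintype.card B - 2, by omega⟩
  set m := n / 2 with hm
  set P : Finset (Finset B) := powersetCard (m + 1) univ with hP
  have hPc : P.card = (n + 2).choose (m + 1) := by rw [hP, card_powersetCard, card_univ, hn]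
  have hpos : 0 < (n + 2).choose (m + 1) := Nat.choose_pos (by omega)
  have hkey := key n m hm
  -- double counting
  have hsum : ∑ A ∈ P, (univ.filter fun e => (a e ∈ A ↔ b e ∈ A)).card =
      ∑ e : E, (P.filter fun A => (a e ∈ A ↔ b e ∈ A)).card := by
    simp only [card_filter]
    exact sum_comm
  have hsum2 : 2 * (n + 2) * ∑ A ∈ P, (univ.filter fun e => (a e ∈ A ↔ b e ∈ A)).card ≤
      Fintype.card E * (n + 1) * (n + 2).choose (m + 1) := by
    rw [hsum, mul_sum]
    calc ∑ e : E, 2 * (n + 2) * (P.filter fun A => (a e ∈ A ↔ b e ∈ A)).card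
        ≤ ∑ _e : E, (n + 1) * (n + 2).choose (m + 1) := by
          refine sum_le_sum fun e _ => ?_
          have h1 := card_nonsep (m := m) hn (h e)
          rw [← hP] at h1
          nlinarith
      _ = Fintype.card E * (n + 1) * (n + 2).choose (m + 1) := by
          rw [sum_const, card_univ, smul_eq_mul]; ring
  obtain ⟨A, hA, hle⟩ : ∃ A ∈ P, 2 * (n + 2) * (univ.filter fun e => (a e ∈ A ↔ b e ∈ A)).card ≤
      Fintype.card E * (n + 1) := by
    by_contra hcon
    push Not at hcon
    have hne : P.Nonempty := card_pos.1 (by omega)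
    have h1 : ∑ A ∈ P, Fintype.card E * (n + 1) <
        ∑ A ∈ P, 2 * (n + 2) * (univ.filter fun e => (a e ∈ A ↔ b e ∈ A)).card :=
      sum_lt_sum_of_nonempty hne hcon
    rw [sum_const, smul_eq_mul, hPc, ← mul_sum] at h1
    have h3 : Fintype.card E * (n + 1) * (n + 2).choose (m + 1) =
        (n + 2).choose (m + 1) * (Fintype.card E * (n + 1)) := by ring
    omega
  refine ⟨fun x => decide (x ∈ A), ?_⟩
  have h2 : (univ.filter fun e => decide (a e ∈ A) = decide (b e ∈ A)) =
      univ.filter fun e => (a e ∈ A ↔ b e ∈ A) := by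
    apply filter_congr
    intro e _
    simp only [decide_eq_decide]
  rw [hn, h2]
  exact hle

end Pool.Agent.L0
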